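import Mathlib

/-!
# The mobile general position number of the infinite integer lattices

`mob(P_∞^{k,□}) = 2 ^ (2 ^ (k - 1))` for every `k ≥ 1`.
-/

set_option autoImplicit false

namespace Pool.Agent.Results.MP_903b9e_co.MobileLattice

/-- The `k`-fold Cartesian product of the two-way infinite path: the vertex set is `ℤ ^ k`, and two
vertices are adjacent when they differ by exactly `1` in exactly one coordinate. -/
def grid (k : ℕ) : SimpleGraph (Fin k → ℤ) where
  Adj x y := ∃ i, |x i - y i| = 1 ∧ ∀ j, j ≠ i → x j = y j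
  symm := ⟨fun x y ⟨i, h1, h2⟩ => ⟨i, by rw [abs_sub_comm]; exact h1, fun j hj => (h2 j hj).symm⟩⟩
  loopless := ⟨fun x ⟨i, h1, _⟩ => by simp at h1⟩

section defs

variable {V : Type*} (G : SimpleGraph V)

/-- A set `S` of vertices is in general position if no three (distinct) vertices of `S` lie on a
common shortest path (a walk `p` from `u` to `v` whose length is the distance of `u` and `v`). -/
def GeneralPosition (S : Set V) : Prop :=
  ∀ (u v : V) (p : G.Walk u v), p.length = G.dist u v →
    ∀ x ∈ S, ∀ y ∈ S, ∀ z ∈ S, x ∈ p.support → y ∈ p.support → z ∈ p.support →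
      x = y ∨ y = z ∨ x = z

/-- A legal move takes one robot from a vertex `x` of `S` to an adjacent unoccupied vertex `y`, and
the new set `T` of occupied vertices is again in general position. -/
def LegalMove (S T : Set V) : Prop :=
  ∃ x ∈ S, ∃ y, y ∉ S ∧ G.Adj x y ∧ T = insert y (S \ {x}) ∧ GeneralPosition G T

/-- `S` is a mobile general position set (of the infinite graph `G`): it is in general position
and some infinite sequence of legal moves starting from `S` has every vertex of `G` occupied at
some time. -/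
def Mobile (S : Set V) : Prop :=
  GeneralPosition G S ∧ ∃ C : ℕ → Set V, C 0 = S ∧ (∀ t, LegalMove G (C t) (C (t + 1))) ∧
    ∀ v, ∃ t, v ∈ C t

end defs

/-! ### Distances in the grid -/

/-- the `ℓ₁` distance -/
def ell {k : ℕ} (x y : Fin k → ℤ) : ℕ := ∑ i, (x i - y i).natAbs

theorem ell_comm {k : ℕ} (x y : Fin k → ℤ) : ell x y = ell y x := by
  unfold ell
  refine Finset.sum_congr rfl fun i _ => ?_
  omega

theorem ell_triangle {k : ℕ} (x y z : Fin k → ℤ) : ell x z ≤ ell x y + ell y z := by
  unfold ell
  rw [← Finset.sum_add_distrib]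
  refine Finset.sum_le_sum fun i _ => ?_
  omega

theorem ell_self {k : ℕ} (x : Fin k → ℤ) : ell x x = 0 := by simp [ell]

theorem eq_of_ell_eq_zero {k : ℕ} {x y : Fin k → ℤ} (h : ell x y = 0) : x = y := by
  unfold ell at h
  rw [Finset.sum_eq_zero_iff] at h
  funext i
  have := h i (Finset.mem_univ i)
  omega

theorem ell_adj {k : ℕ} {x y : Fin k → ℤ} (h : (grid k).Adj x y) : ell x y = 1 := by
  obtain ⟨i, h1, h2⟩ := h
  unfold ell
  rw [Finset.sum_eq_single i]
  · rw [Int.abs_eq_natAbs] at h1
    exact_mod_cast h1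
  · intro j _ hj
    rw [h2 j hj]
    simp
  · intro h
    exact absurd (Finset.mem_univ i) h

theorem ell_le_length {k : ℕ} {x y : Fin k → ℤ} (p : (grid k).Walk x y) : ell x y ≤ p.length := by
  induction p with
  | nil => simp [ell_self]
  | @cons a b c h p ih =>
    rw [SimpleGraph.Walk.length_cons]
    have := ell_adj h
    refine (ell_triangle a b c).trans ?_
    omega

theorem exists_walk {k : ℕ} (n : ℕ) : ∀ x y : Fin k → ℤ, ell x y = n →
    ∃ p : (grid k).Walk x y, p.length = n := by
  induction n with
  | zero =>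
    intro x y h
    have := eq_of_ell_eq_zero h
    subst this
    exact ⟨SimpleGraph.Walk.nil, rfl⟩
  | succ n ih =>
    intro x y h
    have hne : ∃ i, x i ≠ y i := by
      by_contra hall
      push Not at hall
      have : x = y := funext hall
      subst this
      rw [ell_self] at h
      omega
    obtain ⟨i, hi⟩ := hne
    set s : ℤ := if x i < y i then 1 else -1 with hs
    set x' : Fin k → ℤ := Function.update x i (x i + s) with hx'
    have hadj : (grid k).Adj x x' := by
      refine ⟨i, ?_, fun j hj => ?_⟩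
      · rw [hx', Function.update_self, hs]
        split_ifs <;> simp
      · rw [hx', Function.update_of_ne hj]
    have hell : ell x' y = n := by
      have e1 : ell x y = (x i - y i).natAbs + ∑ j ∈ Finset.univ.erase i, (x j - y j).natAbs :=
        (Finset.add_sum_erase _ _ (Finset.mem_univ i)).symm
      have e2 : ell x' y = (x' i - y i).natAbs + ∑ j ∈ Finset.univ.erase i, (x' j - y j).natAbs :=
        (Finset.add_sum_erase _ _ (Finset.mem_univ i)).symm
      have e3 : ∑ j ∈ Finset.univ.erase i, (x' j - y j).natAbs =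
          ∑ j ∈ Finset.univ.erase i, (x j - y j).natAbs := by
        refine Finset.sum_congr rfl fun j hj => ?_
        rw [hx', Function.update_of_ne (Finset.ne_of_mem_erase hj)]
      have e4 : (x' i - y i).natAbs + 1 = (x i - y i).natAbs := by
        rw [hx', Function.update_self, hs]
        split_ifs with hlt <;> omega
      omega
    obtain ⟨p, hp⟩ := ih x' y hell
    exact ⟨SimpleGraph.Walk.cons hadj p, by rw [SimpleGraph.Walk.length_cons, hp]⟩

theorem dist_eq {k : ℕ} (x y : Fin k → ℤ) : (grid k).dist x y = ell x y := by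
  obtain ⟨p, hp⟩ := exists_walk (ell x y) x y rfl
  apply le_antisymm
  · rw [← hp]
    exact SimpleGraph.dist_le p
  · obtain ⟨q, hq⟩ := p.reachable.exists_walk_length_eq_dist
    rw [← hq]
    exact ell_le_length q

/-- `y` lies in the box spanned by `x` and `z`. -/
def Box {k : ℕ} (x y z : Fin k → ℤ) : Prop :=
  ∀ i, (x i ≤ y i ∧ y i ≤ z i) ∨ (z i ≤ y i ∧ y i ≤ x i)

theorem box_iff {k : ℕ} (x y z : Fin k → ℤ) : Box x y z ↔ ell x z = ell x y + ell y z := by
  unfold ell
  rw [← Finset.sum_add_distrib]
  constructor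
  · intro h
    refine Finset.sum_congr rfl fun i _ => ?_
    have := h i
    omega
  · intro h i
    have h2 := (Finset.sum_eq_sum_iff_of_le (s := Finset.univ)
      (f := fun i => (x i - z i).natAbs) (g := fun i => (x i - y i).natAbs + (y i - z i).natAbs)
      (fun i _ => by omega)).1 h i (Finset.mem_univ i)
    omega

/-- Two vertices on a shortest walk from `u`. -/
theorem geodesic {k : ℕ} {u v : Fin k → ℤ} (p : (grid k).Walk u v) (hp : p.length = ell u v)
    {x y : Fin k → ℤ} (hx : x ∈ p.support) (hy : y ∈ p.support) :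
    (ell u x ≤ ell u y ∧ ell u y = ell u x + ell x y) ∨
      (ell u y ≤ ell u x ∧ ell u x = ell u y + ell y x) := by
  classical
  have hspec := p.take_spec hx
  have hlen : (p.takeUntil x hx).length + (p.dropUntil x hx).length = ell u v := by
    rw [← hp, ← SimpleGraph.Walk.length_append, hspec]
  have l1 := ell_le_length (p.takeUntil x hx)
  have l2 := ell_le_length (p.dropUntil x hx)
  have t := ell_triangle u x v
  have hy' : y ∈ ((p.takeUntil x hx).append (p.dropUntil x hx)).support := by
    rw [hspec]
    exact hy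
  rw [SimpleGraph.Walk.mem_support_append_iff] at hy'
  rcases hy' with h | h
  · right
    have hs := (p.takeUntil x hx).take_spec h
    have hl : ((p.takeUntil x hx).takeUntil y h).length +
        ((p.takeUntil x hx).dropUntil y h).length = (p.takeUntil x hx).length := by
      rw [← SimpleGraph.Walk.length_append, hs]
    have m1 := ell_le_length ((p.takeUntil x hx).takeUntil y h)
    have m2 := ell_le_length ((p.takeUntil x hx).dropUntil y h)
    have t2 := ell_triangle u y x
    omega
  · left
    have hs := (p.dropUntil x hx).take_spec h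
    have hl : ((p.dropUntil x hx).takeUntil y h).length +
        ((p.dropUntil x hx).dropUntil y h).length = (p.dropUntil x hx).length := by
      rw [← SimpleGraph.Walk.length_append, hs]
    have m1 := ell_le_length ((p.dropUntil x hx).takeUntil y h)
    have m2 := ell_le_length ((p.dropUntil x hx).dropUntil y h)
    have t2 := ell_triangle x y v
    have t3 := ell_triangle u x y
    have t4 := ell_triangle u y v
    omega

/-- No point of `S` lies in the box spanned by two others. -/
def BoxFree {k : ℕ} (S : Set (Fin k → ℤ)) : Prop :=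
  ∀ x ∈ S, ∀ y ∈ S, ∀ z ∈ S, x ≠ y → y ≠ z → x ≠ z → ¬ Box x y z

theorem generalPosition_iff {k : ℕ} (S : Set (Fin k → ℤ)) :
    GeneralPosition (grid k) S ↔ BoxFree S := by
  constructor
  · intro h x hx y hy z hz hxy hyz hxz hbox
    rw [box_iff] at hbox
    obtain ⟨p, hp⟩ := exists_walk _ x y rfl
    obtain ⟨q, hq⟩ := exists_walk _ y z rfl
    have := h x z (p.append q) (by rw [SimpleGraph.Walk.length_append, dist_eq, hp, hq, hbox])
      x hx y hy z hz (by simp) (by simp) (by simp)
    tauto
  · intro h u v p hp x hx y hy z hz px py pz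
    rw [dist_eq] at hp
    by_contra hcon
    push Not at hcon
    obtain ⟨hxy, hyz, hxz⟩ := hcon
    have g1 := geodesic p hp px py
    have g2 := geodesic p hp py pz
    have g3 := geodesic p hp px pz
    have c1 := ell_comm x y
    have c2 := ell_comm y z
    have c3 := ell_comm x z
    have hor : ell x z = ell x y + ell y z ∨ ell y z = ell y x + ell x z ∨
        ell x y = ell x z + ell z y := by omega
    rcases hor with h' | h' | h'
    · exact h x hx y hy z hz hxy hyz hxz ((box_iff _ _ _).2 h')
    · exact h y hy x hx z hz hxy.symm hxz hyz ((box_iff _ _ _).2 h')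
    · exact h x hx z hz y hy hxz hyz.symm hxy ((box_iff _ _ _).2 h')

/-! ### The upper bound -/

open Classical in
/-- the label of a point: for each sign pattern, is there another point of `S` below it? -/
noncomputable def label {m : ℕ} (S : Set (Fin (m + 1) → ℤ)) (y : Fin (m + 1) → ℤ) :
    (Fin m → Bool) → Bool := fun s =>
  decide (∃ x ∈ S, x ≠ y ∧ x 0 ≤ y 0 ∧ ∀ i : Fin m,
    if s i then x i.succ ≤ y i.succ else y i.succ ≤ x i.succ)

theorem label_ne {m : ℕ} {S : Set (Fin (m + 1) → ℤ)} (hS : BoxFree S) {x y : Fin (m + 1) → ℤ}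
    (hx : x ∈ S) (hy : y ∈ S) (hxy : x ≠ y) (h0 : x 0 ≤ y 0) : label S x ≠ label S y := by
  classical
  intro heq
  set s : Fin m → Bool := fun i => decide (x i.succ ≤ y i.succ) with hs
  have h1 : label S y s = true := by
    rw [label, decide_eq_true_iff]
    refine ⟨x, hx, hxy, h0, fun i => ?_⟩
    by_cases h : x i.succ ≤ y i.succ
    · simp [hs, h]
    · simp only [hs, h, decide_false, Bool.false_eq_true, if_false]
      omega
  rw [← heq, label, decide_eq_true_iff] at h1
  obtain ⟨w, hw, hwx, hw0, hwi⟩ := h1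
  have hwy : w ≠ y := by
    rintro rfl
    apply hwx
    funext i
    refine Fin.cases ?_ (fun i => ?_) i
    · omega
    · have := hwi i
      by_cases h : x i.succ ≤ w i.succ
      · simp only [hs, h, decide_true, if_true] at this
        omega
      · simp only [hs, h, decide_false, Bool.false_eq_true, if_false] at this
  refine hS w hw x hx y hy hwx hxy hwy fun i => ?_
  refine Fin.cases ?_ (fun i => ?_) i
  · left
    exact ⟨hw0, h0⟩
  · have := hwi i
    by_cases h : x i.succ ≤ y i.succ
    · simp only [hs, h, decide_true, if_true] at this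
      left
      exact ⟨this, h⟩
    · simp only [hs, h, decide_false, Bool.false_eq_true, if_false] at this
      right
      exact ⟨by omega, this⟩

theorem upper {m : ℕ} {S : Set (Fin (m + 1) → ℤ)} (hS : BoxFree S) :
    S.encard ≤ 2 ^ (2 ^ m) := by
  have hinj : Set.InjOn (label S) S := by
    intro x hx y hy heq
    by_contra hne
    rcases le_total (x 0) (y 0) with h | h
    · exact label_ne hS hx hy hne h heq
    · exact label_ne hS hy hx (Ne.symm hne) h heq.symm
  rw [← hinj.encard_image]
  refine (Set.encard_le_encard (Set.subset_univ _)).trans ?_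
  rw [Set.encard_univ, ENat.card_eq_coe_fintype_card]
  simp

/-! ### The extremal sets -/

/-- Any two distinct points of `S` differ by at least `c` in each coordinate. -/
def Spaced {k : ℕ} (c : ℤ) (S : Set (Fin k → ℤ)) : Prop :=
  ∀ x ∈ S, ∀ y ∈ S, x ≠ y → ∀ i, c ≤ |x i - y i|

/-- `B s_i + t_i` in the first coordinates and `B s_0 - t_0` in the last one. -/
def comb {m : ℕ} (B : ℤ) (s t : Fin (m + 1) → ℤ) : Fin (m + 2) → ℤ :=
  Fin.snoc (α := fun _ => ℤ) (fun i => B * s i + t i) (B * s 0 - t 0)

theorem comb_castSucc {m : ℕ} (B : ℤ) (s t : Fin (m + 1) → ℤ) (i : Fin (m + 1)) :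
    comb B s t i.castSucc = B * s i + t i := by simp [comb]

theorem comb_last {m : ℕ} (B : ℤ) (s t : Fin (m + 1) → ℤ) :
    comb B s t (Fin.last _) = B * s 0 - t 0 := by simp [comb]

/-- comparison of `B a + b` -/
theorem lt_of_lt {B a a' b b' : ℤ} (h : a < a') (hb : |b - b'| < B) : B * a + b < B * a' + b' := by
  have h1 := abs_lt.1 hb
  nlinarith

theorem extremal (m : ℕ) : ∃ S : Finset (Fin (m + 1) → ℤ), S.card = 2 ^ (2 ^ m) ∧
    BoxFree (S : Set (Fin (m + 1) → ℤ)) ∧ Spaced 1 (S : Set (Fin (m + 1) → ℤ)) := by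
  classical
  induction m with
  | zero =>
    refine ⟨{fun _ => 0, fun _ => 1}, ?_, ?_, ?_⟩
    · rw [Finset.card_pair]
      · rfl
      · intro h
        have := congrFun h 0
        simp at this
    · intro x hx y hy z hz hxy hyz hxz
      simp only [Finset.coe_insert, Finset.coe_singleton, Set.mem_insert_iff,
        Set.mem_singleton_iff] at hx hy hz
      rcases hx with rfl | rfl <;> rcases hy with rfl | rfl <;> rcases hz with rfl | rfl <;>
        simp at hxy hyz hxz
    · intro x hx y hy hxy i
      simp only [Finset.coe_insert, Finset.coe_singleton, Set.mem_insert_iff,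
        Set.mem_singleton_iff] at hx hy
      rcases hx with rfl | rfl <;> rcases hy with rfl | rfl <;> simp at hxy ⊢
  | succ m ih =>
    obtain ⟨S, hcard, hbox, hsp⟩ := ih
    -- a bound for the differences
    obtain ⟨B, hB⟩ : ∃ B : ℤ, ∀ x ∈ S, ∀ y ∈ S, ∀ i, |x i - y i| < B := by
      have hfin : (Set.range fun q : (S ×ˢ S : Finset _) × Fin (m + 1) =>
          |q.1.1.1 q.2 - q.1.1.2 q.2|).Finite := Set.finite_range _
      obtain ⟨B, hB⟩ := hfin.bddAbove
      refine ⟨B + 1, fun x hx y hy i => ?_⟩
      have := hB ⟨(⟨(x, y), Finset.mk_mem_product hx hy⟩, i), rfl⟩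
      simp only at this
      omega
    have hBpos : 0 < B := by
      have hne : S.Nonempty := by
        rw [← Finset.card_pos, hcard]
        positivity
      obtain ⟨x, hx⟩ := hne
      exact (abs_nonneg _).trans_lt (hB x hx x hx 0)
    have hlt : ∀ x ∈ S, ∀ y ∈ S, x ≠ y → ∀ i, x i < y i ∨ y i < x i := by
      intro x hx y hy hxy i
      have := hsp x hx y hy hxy i
      have h0 : x i ≠ y i := by
        intro h
        rw [h] at this
        simp at this
      omega
    -- comparisons in the product
    have cmp : ∀ s ∈ S, ∀ s' ∈ S, ∀ t ∈ S, ∀ t' ∈ S, ∀ i, s i < s' i →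
        B * s i + t i < B * s' i + t' i := fun s _ s' _ t ht t' ht' i h =>
      lt_of_lt h (hB t ht t' ht' i)
    have cmp' : ∀ s ∈ S, ∀ s' ∈ S, ∀ t ∈ S, ∀ t' ∈ S, s 0 < s' 0 →
        B * s 0 - t 0 < B * s' 0 - t' 0 := fun s _ s' _ t ht t' ht' h => by
      have := lt_of_lt (B := B) (a := s 0) (a' := s' 0) (b := -t 0) (b' := -t' 0) h (by
        have := hB t' ht' t ht 0
        rw [show -t 0 - -t' 0 = t' 0 - t 0 by ring]
        exact this)
      linarith
    have diff : ∀ s ∈ S, ∀ s' ∈ S, ∀ t ∈ S, ∀ t' ∈ S, comb B s t ≠ comb B s' t' →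
        ∀ i, comb B s t i ≠ comb B s' t' i := by
      intro s hs s' hs' t ht t' ht' hne i
      by_cases hss : s = s'
      · subst hss
        have htt : t ≠ t' := by
          rintro rfl
          exact hne rfl
        refine Fin.lastCases ?_ (fun i => ?_) i
        · rw [comb_last, comb_last]
          have := hlt t ht t' ht' htt 0
          omega
        · rw [comb_castSucc, comb_castSucc]
          have := hlt t ht t' ht' htt i
          omega
      · refine Fin.lastCases ?_ (fun i => ?_) i
        · rw [comb_last, comb_last]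
          rcases hlt s hs s' hs' hss 0 with h | h
          · exact (cmp' s hs s' hs' t ht t' ht' h).ne
          · exact (cmp' s' hs' s hs t' ht' t ht h).ne'
        · rw [comb_castSucc, comb_castSucc]
          rcases hlt s hs s' hs' hss i with h | h
          · exact (cmp s hs s' hs' t ht t' ht' i h).ne
          · exact (cmp s' hs' s hs t' ht' t ht i h).ne'
    have inj : ∀ s ∈ S, ∀ s' ∈ S, ∀ t ∈ S, ∀ t' ∈ S, comb B s t = comb B s' t' →
        s = s' ∧ t = t' := by
      intro s hs s' hs' t ht t' ht' h
      have hss : s = s' := by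
        by_contra hne
        have e := congrFun h (Fin.castSucc 0)
        rw [comb_castSucc, comb_castSucc] at e
        rcases hlt s hs s' hs' hne 0 with h' | h'
        · exact (cmp s hs s' hs' t ht t' ht' 0 h').ne e
        · exact (cmp s' hs' s hs t' ht' t ht 0 h').ne' e
      subst hss
      refine ⟨rfl, funext fun i => ?_⟩
      have e := congrFun h i.castSucc
      rw [comb_castSucc, comb_castSucc] at e
      omega
    -- the key exclusion
    have key : ∀ s ∈ S, ∀ s'' ∈ S, ∀ t ∈ S, ∀ t' ∈ S, ∀ t'' ∈ S, t ≠ t' → s ≠ s'' →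
        ¬ Box (comb B s t) (comb B s t') (comb B s'' t'') := by
      intro s hs s'' hs'' t ht t' ht' t'' ht'' htt hss hb
      have b0 := hb (Fin.castSucc 0)
      have b1 := hb (Fin.last _)
      rw [comb_castSucc, comb_castSucc, comb_castSucc] at b0
      rw [comb_last, comb_last, comb_last] at b1
      have h0 := hlt t ht t' ht' htt 0
      rcases hlt s hs s'' hs'' hss 0 with h | h
      · have c0 := cmp s hs s'' hs'' t' ht' t'' ht'' 0 h
        have c1 := cmp' s hs s'' hs'' t' ht' t'' ht'' h
        omega
      · have c0 := cmp s'' hs'' s hs t'' ht'' t' ht' 0 h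
        have c1 := cmp' s'' hs'' s hs t'' ht'' t' ht' h
        omega
    have main : ∀ s ∈ S, ∀ s' ∈ S, ∀ s'' ∈ S, ∀ t ∈ S, ∀ t' ∈ S, ∀ t'' ∈ S,
        comb B s t ≠ comb B s' t' → comb B s' t' ≠ comb B s'' t'' →
        comb B s t ≠ comb B s'' t'' → ¬ Box (comb B s t) (comb B s' t') (comb B s'' t'') := by
      intro s hs s' hs' s'' hs'' t ht t' ht' t'' ht'' h1 h2 h3 hb
      have hb' : Box s s' s'' := by
        intro i
        have bi := hb i.castSucc
        rw [comb_castSucc, comb_castSucc, comb_castSucc] at bi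
        by_contra hcon
        push Not at hcon
        have c1 := cmp s hs s' hs' t ht t' ht' i
        have c2 := cmp s' hs' s hs t' ht' t ht i
        have c3 := cmp s' hs' s'' hs'' t' ht' t'' ht'' i
        have c4 := cmp s'' hs'' s' hs' t'' ht'' t' ht' i
        omega
      by_cases e1 : s = s'
      · subst e1
        have htt : t ≠ t' := by
          rintro rfl
          exact h1 rfl
        by_cases e2 : s = s''
        · subst e2
          refine hbox t ht t' ht' t'' ht'' htt (fun h => h2 (by rw [h])) (fun h => h3 (by rw [h]))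
            fun i => ?_
          have bi := hb i.castSucc
          rw [comb_castSucc, comb_castSucc, comb_castSucc] at bi
          omega
        · exact key s hs s'' hs'' t ht t' ht' t'' ht'' htt e2 hb
      · by_cases e2 : s' = s''
        · subst e2
          have htt : t'' ≠ t' := by
            rintro rfl
            exact h2 rfl
          refine key s' hs' s hs t'' ht'' t' ht' t ht htt (Ne.symm e1) fun i => ?_
          rcases hb i with h | h
          · right
            exact h
          · left
            exact h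
        · by_cases e3 : s = s''
          · subst e3
            apply e1
            funext i
            have := hb' i
            omega
          · exact hbox s hs s' hs' s'' hs'' e1 e2 e3 hb'
    refine ⟨(S ×ˢ S).image fun q => comb B q.1 q.2, ?_, ?_, ?_⟩
    · rw [Finset.card_image_of_injOn, Finset.card_product, hcard, ← pow_add, pow_succ]
      · congr 1
        ring
      · rintro ⟨s, t⟩ h1 ⟨s', t'⟩ h2 h
        rw [Finset.mem_coe, Finset.mem_product] at h1 h2
        obtain ⟨e1, e2⟩ := inj s h1.1 s' h2.1 t h1.2 t' h2.2 h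
        rw [e1, e2]
    · intro x hx y hy z hz
      rw [Finset.mem_coe, Finset.mem_image] at hx hy hz
      obtain ⟨⟨s, t⟩, h1, rfl⟩ := hx
      obtain ⟨⟨s', t'⟩, h2, rfl⟩ := hy
      obtain ⟨⟨s'', t''⟩, h3, rfl⟩ := hz
      rw [Finset.mem_product] at h1 h2 h3
      exact main s h1.1 s' h2.1 s'' h3.1 t h1.2 t' h2.2 t'' h3.2
    · intro x hx y hy hxy i
      rw [Finset.mem_coe, Finset.mem_image] at hx hy
      obtain ⟨⟨s, t⟩, h1, rfl⟩ := hx
      obtain ⟨⟨s', t'⟩, h2, rfl⟩ := hy
      rw [Finset.mem_product] at h1 h2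
      have := diff s h1.1 s' h2.1 t h1.2 t' h2.2 hxy i
      exact Int.one_le_abs (sub_ne_zero.2 this)

/-- The same with spacing `2`. -/
theorem extremal2 (m : ℕ) : ∃ S : Finset (Fin (m + 1) → ℤ), S.card = 2 ^ (2 ^ m) ∧
    BoxFree (S : Set (Fin (m + 1) → ℤ)) ∧ Spaced 2 (S : Set (Fin (m + 1) → ℤ)) := by
  classical
  obtain ⟨S, hcard, hbox, hsp⟩ := extremal m
  have inj : Function.Injective fun (x : Fin (m + 1) → ℤ) (i : Fin (m + 1)) => 2 * x i := by
    intro x y h
    funext i
    have := congrFun h i
    simp only at this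
    omega
  refine ⟨S.image fun x i => 2 * x i, ?_, ?_, ?_⟩
  · rw [Finset.card_image_of_injective _ inj, hcard]
  · intro x hx y hy z hz hxy hyz hxz hb
    rw [Finset.mem_coe, Finset.mem_image] at hx hy hz
    obtain ⟨x, hx, rfl⟩ := hx
    obtain ⟨y, hy, rfl⟩ := hy
    obtain ⟨z, hz, rfl⟩ := hz
    refine hbox x hx y hy z hz (fun h => hxy (by rw [h])) (fun h => hyz (by rw [h]))
      (fun h => hxz (by rw [h])) fun i => ?_
    have := hb i
    simp only at this
    omega
  · intro x hx y hy hxy i
    rw [Finset.mem_coe, Finset.mem_image] at hx hy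
    obtain ⟨x, hx, rfl⟩ := hx
    obtain ⟨y, hy, rfl⟩ := hy
    have := hsp x hx y hy (fun h => hxy (by rw [h])) i
    rw [show 2 * x i - 2 * y i = 2 * (x i - y i) by ring, abs_mul]
    norm_num
    exact this

/-! ### Infinite sequences of moves -/

/-- `Dst R g k n x`: in exactly `k` steps of `R` one can get from `x` to the goal `g n`. -/
def Dst {α : Type*} (R : α → α → Prop) (g : ℕ → α → Prop) : ℕ → ℕ → α → Prop
  | 0, n, x => g n x
  | k + 1, n, x => ∃ y, R x y ∧ Dst R g k n y

theorem exists_dst {α : Type*} {R : α → α → Prop} {g : ℕ → α → Prop} {n : ℕ} {x y : α}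
    (h : Relation.ReflTransGen R x y) (hy : g n y) : ∃ k, Dst R g k n x := by
  induction h using Relation.ReflTransGen.head_induction_on with
  | refl => exact ⟨0, hy⟩
  | head h1 _ ih =>
    obtain ⟨k, hk⟩ := ih
    exact ⟨k + 1, _, h1, hk⟩

theorem exists_seq {α : Type*} {R : α → α → Prop} (hR : ∀ x, ∃ y, R x y) {g : ℕ → α → Prop}
    (hg : ∀ x n, ∃ y, Relation.ReflTransGen R x y ∧ g n y) (x0 : α) :
    ∃ f : ℕ → α, f 0 = x0 ∧ (∀ t, R (f t) (f (t + 1))) ∧ ∀ n, ∃ t, g n (f t) := by
  classical
  have hd : ∀ x n, ∃ k, Dst R g k n x := fun x n => by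
    obtain ⟨y, h1, h2⟩ := hg x n
    exact exists_dst h1 h2
  have hstep : ∀ s : α × ℕ, ∃ s' : α × ℕ, R s.1 s'.1 ∧
      ((g s.2 s.1 ∧ s'.2 = s.2 + 1) ∨
        (s'.2 = s.2 ∧ Nat.find (hd s'.1 s.2) < Nat.find (hd s.1 s.2))) := by
    rintro ⟨x, n⟩
    have h := Nat.find_spec (hd x n)
    rcases hk : Nat.find (hd x n) with _ | k
    · rw [hk] at h
      obtain ⟨y, hy⟩ := hR x
      exact ⟨(y, n + 1), hy, Or.inl ⟨h, rfl⟩⟩
    · rw [hk] at h
      obtain ⟨y, hy, h2⟩ := h
      refine ⟨(y, n), hy, Or.inr ⟨rfl, ?_⟩⟩
      have := Nat.find_min' (hd y n) h2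
      simp only
      omega
  choose step h1 h2 using hstep
  set s : ℕ → α × ℕ := fun t => step^[t] (x0, 0) with hs
  have hsucc : ∀ t, s (t + 1) = step (s t) := fun t => Function.iterate_succ_apply' step t _
  have reach : ∀ (d t : ℕ), Nat.find (hd (s t).1 (s t).2) ≤ d →
      ∃ t', g (s t).2 (s t').1 ∧ (s t').2 = (s t).2 := by
    intro d
    induction d with
    | zero =>
      intro t ht
      have h := Nat.find_spec (hd (s t).1 (s t).2)
      rw [Nat.le_zero.1 ht] at h
      exact ⟨t, h, rfl⟩
    | succ d ih =>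
      intro t ht
      rcases h2 (s t) with ⟨h3, -⟩ | ⟨h3, h4⟩
      · exact ⟨t, h3, rfl⟩
      · have h5 := ih (t + 1)
        rw [hsucc, h3] at h5
        obtain ⟨t', h6, h7⟩ := h5 (by omega)
        exact ⟨t', h6, h7⟩
  have hidx : ∀ n, ∃ t, (s t).2 = n := by
    intro n
    induction n with
    | zero => exact ⟨0, rfl⟩
    | succ n ih =>
      obtain ⟨t, ht⟩ := ih
      obtain ⟨t', h3, h4⟩ := reach _ t le_rfl
      rw [ht] at h3 h4
      refine ⟨t' + 1, ?_⟩
      rw [hsucc]
      rcases h2 (s t') with ⟨-, h5⟩ | ⟨-, h5⟩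
      · rw [h5, h4]
      · exfalso
        have h6 : Nat.find (hd (s t').1 (s t').2) ≤ 0 := by
          refine Nat.find_min' _ ?_
          show g (s t').2 (s t').1
          rw [h4]
          exact h3
        omega
  refine ⟨fun t => (s t).1, rfl, fun t => ?_, fun n => ?_⟩
  · simp only
    rw [hsucc]
    exact h1 (s t)
  · obtain ⟨t, ht⟩ := hidx n
    obtain ⟨t', h3, -⟩ := reach _ t le_rfl
    rw [ht] at h3
    exact ⟨t', h3⟩

/-- An infinite walk through all vertices of the lattice. -/
theorem exists_walk_all (m : ℕ) : ∃ w : ℕ → (Fin (m + 1) → ℤ), w 0 = 0 ∧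
    (∀ t, (grid (m + 1)).Adj (w t) (w (t + 1))) ∧ Function.Surjective w := by
  obtain ⟨enum, henum⟩ := exists_surjective_nat (Fin (m + 1) → ℤ)
  obtain ⟨w, h0, h1, h2⟩ := exists_seq (R := (grid (m + 1)).Adj) (g := fun n x => x = enum n)
    (fun x => ⟨Function.update x 0 (x 0 + 1), 0, by simp,
      fun j hj => by rw [Function.update_of_ne hj]⟩)
    (fun x n => by
      obtain ⟨p, -⟩ := exists_walk _ x (enum n) rfl
      exact ⟨enum n, (SimpleGraph.reachable_iff_reflTransGen _ _).1 p.reachable, rfl⟩) 0
  refine ⟨w, h0, h1, fun v => ?_⟩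
  obtain ⟨n, rfl⟩ := henum v
  exact h2 n

/-- Small perturbations of a spaced box-free family stay box-free, and injective. -/
theorem perturb {m M : ℕ} {S : Set (Fin (m + 1) → ℤ)} (hbox : BoxFree S) (hsp : Spaced 2 S)
    (p a : Fin M → (Fin (m + 1) → ℤ)) (hp : ∀ j, p j ∈ S) (hinj : Function.Injective p)
    (ha : ∀ j l i, |a j i - a l i| ≤ 1) :
    Function.Injective (fun j => p j + a j) ∧ BoxFree (Set.range fun j => p j + a j) := by
  have hsep : ∀ j l, j ≠ l → ∀ i, (p j i + a j i < p l i + a l i ∧ p j i < p l i) ∨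
      (p l i + a l i < p j i + a j i ∧ p l i < p j i) := by
    intro j l hjl i
    have h1 := hsp _ (hp j) _ (hp l) (fun h => hjl (hinj h)) i
    have h2 := abs_le.1 (ha j l i)
    rcases le_abs.1 h1 with h | h
    · right
      omega
    · left
      omega
  refine ⟨fun j l h => ?_, ?_⟩
  · by_contra hne
    have h0 := congrFun h 0
    simp only [Pi.add_apply] at h0
    rcases hsep j l hne 0 with h | h <;> omega
  · rintro _ ⟨j, rfl⟩ _ ⟨l, rfl⟩ _ ⟨n, rfl⟩ hjl hln hjn hb
    have jl : j ≠ l := fun h => hjl (by rw [h])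
    have ln : l ≠ n := fun h => hln (by rw [h])
    have jn : j ≠ n := fun h => hjn (by rw [h])
    refine hbox _ (hp j) _ (hp l) _ (hp n) (fun h => jl (hinj h)) (fun h => ln (hinj h))
      (fun h => jn (hinj h)) fun i => ?_
    have bi := hb i
    simp only [Pi.add_apply] at bi
    have s1 := hsep j l jl i
    have s2 := hsep l n ln i
    omega

theorem range_update {α β : Type*} [DecidableEq α] (f : α → β) (hf : Function.Injective f)
    (j : α) (y : β) : Set.range (Function.update f j y) = insert y (Set.range f \ {f j}) := by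
  ext x
  simp only [Set.mem_range, Set.mem_insert_iff, Set.mem_sdiff, Set.mem_singleton_iff]
  constructor
  · rintro ⟨l, rfl⟩
    by_cases h : l = j
    · subst h
      left
      simp
    · right
      rw [Function.update_of_ne h]
      exact ⟨⟨l, rfl⟩, fun h' => h (hf h')⟩
  · rintro (rfl | ⟨⟨l, rfl⟩, h⟩)
    · exact ⟨j, by simp⟩
    · refine ⟨l, ?_⟩
      rw [Function.update_of_ne]
      rintro rfl
      exact h rfl

theorem adj_abs {k : ℕ} {x y : Fin k → ℤ} (h : (grid k).Adj x y) (i : Fin k) :
    |x i - y i| ≤ 1 := by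
  obtain ⟨j, h1, h2⟩ := h
  by_cases hij : i = j
  · rw [hij, h1]
  · rw [h2 i hij]
    simp

theorem adj_add {k : ℕ} {x y : Fin k → ℤ} (p : Fin k → ℤ) (h : (grid k).Adj x y) :
    (grid k).Adj (p + x) (p + y) := by
  obtain ⟨j, h1, h2⟩ := h
  refine ⟨j, ?_, fun i hi => ?_⟩
  · simp only [Pi.add_apply, add_sub_add_left_eq_sub]
    exact h1
  · simp only [Pi.add_apply]
    rw [h2 i hi]

theorem mobile_of_spaced {m : ℕ} (S : Finset (Fin (m + 1) → ℤ)) (hne : S.Nonempty)
    (hbox : BoxFree (S : Set (Fin (m + 1) → ℤ))) (hsp : Spaced 2 (S : Set (Fin (m + 1) → ℤ))) :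
    Mobile (grid (m + 1)) (S : Set (Fin (m + 1) → ℤ)) := by
  classical
  obtain ⟨w, hw0, hw1, hw2⟩ := exists_walk_all m
  set M := S.card with hM
  have hMpos : 0 < M := Finset.card_pos.2 hne
  set p : Fin M → (Fin (m + 1) → ℤ) := fun j => (S.equivFin.symm j : Fin (m + 1) → ℤ) with hp
  have hpS : ∀ j, p j ∈ (S : Set (Fin (m + 1) → ℤ)) := fun j => (S.equivFin.symm j).2
  have hpinj : Function.Injective p := fun j l h => S.equivFin.symm.injective (Subtype.ext h)
  have hprange : Set.range p = (S : Set (Fin (m + 1) → ℤ)) := by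
    ext x
    constructor
    · rintro ⟨j, rfl⟩
      exact hpS j
    · intro hx
      exact ⟨S.equivFin ⟨x, hx⟩, by simp [hp]⟩
  set a : ℕ → Fin M → (Fin (m + 1) → ℤ) := fun t j => w ((t + M - 1 - j) / M) with ha
  -- at time `t = M q + r` the robots `j < r` have the translation `w (q + 1)`, the others `w q`
  have hval : ∀ t (j : Fin M), (t + M - 1 - j) / M = if (j : ℕ) < t % M then t / M + 1 else t / M := by
    intro t j
    have h1 := Nat.div_add_mod t M
    have h2 := Nat.mod_lt t hMpos
    have h3 := j.2
    set q := t / M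
    set r := t % M
    split_ifs with h
    · have e : t + M - 1 - j = M * (q + 1) + (r - 1 - j) := by
        rw [mul_add, mul_one]
        omega
      rw [e, Nat.mul_add_div hMpos, Nat.div_eq_of_lt (by omega), add_zero]
    · have e : t + M - 1 - j = M * q + (M - 1 - (j - r)) := by omega
      rw [e, Nat.mul_add_div hMpos, Nat.div_eq_of_lt (by omega), add_zero]
  have haval : ∀ t (j : Fin M), a t j = if (j : ℕ) < t % M then w (t / M + 1) else w (t / M) := by
    intro t j
    simp only [ha]
    rw [hval]
    split_ifs <;> rfl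
  have hclose : ∀ t (j l : Fin M) i, |a t j i - a t l i| ≤ 1 := by
    intro t j l i
    rw [haval, haval]
    have h1 := adj_abs (hw1 (t / M)) i
    split_ifs
    · simp
    · rw [abs_sub_comm]
      exact h1
    · exact h1
    · simp
  have hpert : ∀ t, Function.Injective (fun j => p j + a t j) ∧
      BoxFree (Set.range fun j => p j + a t j) := fun t =>
    perturb hbox hsp p (a t) hpS hpinj (hclose t)
  refine ⟨(generalPosition_iff _).2 hbox, fun t => Set.range fun j => p j + a t j, ?_, ?_, ?_⟩
  · simp only
    rw [← hprange]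
    congr 1
    funext j
    rw [haval]
    simp [hw0]
  · intro t
    set j0 : Fin M := ⟨t % M, Nat.mod_lt t hMpos⟩ with hj0
    have hsame : ∀ j, j ≠ j0 → a (t + 1) j = a t j := by
      intro j hj
      simp only [ha]
      congr 1
      have hj' : (j : ℕ) ≠ t % M := fun h => hj (Fin.ext h)
      have h1 := Nat.div_add_mod t M
      have h2 := Nat.mod_lt t hMpos
      have h3 := j.2
      set q := t / M
      set r := t % M
      rw [hval t j]
      rcases lt_or_gt_of_ne hj' with h | h
      · rw [if_pos h]
        have e : t + 1 + M - 1 - j = M * (q + 1) + (r - j) := by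
          rw [mul_add, mul_one]
          omega
        rw [e, Nat.mul_add_div hMpos, Nat.div_eq_of_lt (by omega), add_zero]
      · rw [if_neg (by omega)]
        have e : t + 1 + M - 1 - j = M * q + (M - (j - r)) := by omega
        rw [e, Nat.mul_add_div hMpos, Nat.div_eq_of_lt (by omega), add_zero]
    have hold : a t j0 = w (t / M) := by
      rw [haval, if_neg (by simp [hj0])]
    have hnew : a (t + 1) j0 = w (t / M + 1) := by
      simp only [ha]
      congr 1
      have h1 := Nat.div_add_mod t M
      have h2 := Nat.mod_lt t hMpos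
      have e : t + 1 + M - 1 - (j0 : ℕ) = M * (t / M + 1) := by
        rw [mul_add, mul_one]
        simp only [hj0]
        omega
      rw [e, Nat.mul_div_cancel_left _ hMpos]
    have hadj : (grid (m + 1)).Adj (p j0 + a t j0) (p j0 + a (t + 1) j0) := by
      rw [hold, hnew]
      exact adj_add _ (hw1 _)
    have hupd : (fun j => p j + a (t + 1) j) =
        Function.update (fun j => p j + a t j) j0 (p j0 + a (t + 1) j0) := by
      funext j
      by_cases h : j = j0
      · subst h
        simp
      · rw [Function.update_of_ne h, hsame j h]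
    refine ⟨p j0 + a t j0, ⟨j0, rfl⟩, p j0 + a (t + 1) j0, ?_, hadj, ?_, ?_⟩
    · rintro ⟨l, hl⟩
      by_cases h : l = j0
      · subst h
        simp only at hl
        exact hadj.ne hl
      · simp only at hl
        rw [← hsame l h] at hl
        exact h ((hpert (t + 1)).1 hl)
    · simp only
      rw [hupd]
      exact range_update _ (hpert t).1 j0 _
    · exact (generalPosition_iff _).2 (hpert (t + 1)).2
  · intro v
    obtain ⟨q, hq⟩ := hw2 (v - p ⟨0, hMpos⟩)
    refine ⟨M * q, ⟨0, hMpos⟩, ?_⟩
    simp only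
    rw [haval]
    simp only [Nat.mul_mod_right, lt_self_iff_false, if_false]
    rw [Nat.mul_div_cancel_left _ hMpos, hq]
    abel

/-- **Theorem.** For every `k ≥ 1` the mobile general position number of the `k`-dimensional integer
lattice is `2 ^ (2 ^ (k - 1))`: this is the largest cardinality of a mobile general position set
(cardinalities are taken in `ℕ∞`, so infinite sets are covered). -/
theorem result (k : ℕ) (hk : 1 ≤ k) :
    IsGreatest {e : ℕ∞ | ∃ S : Set (Fin k → ℤ), Mobile (grid k) S ∧ S.encard = e}
      (2 ^ (2 ^ (k - 1))) := by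
  obtain ⟨m, rfl⟩ : ∃ m, k = m + 1 := ⟨k - 1, by omega⟩
  rw [Nat.add_sub_cancel]
  constructor
  · obtain ⟨S, hcard, hbox, hsp⟩ := extremal2 m
    refine ⟨S, mobile_of_spaced S ?_ hbox hsp, ?_⟩
    · rw [← Finset.card_pos, hcard]
      positivity
    · rw [Set.encard_coe_eq_coe_finsetCard, hcard]
      norm_cast
  · rintro e ⟨S, hS, rfl⟩
    exact upper ((generalPosition_iff S).1 hS.1)

end Pool.Agent.Results.MP_903b9e_co.MobileLattice
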